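import Pool.Agent.U837.LP.Win
import Pool.Agent.U837.CC.Lo

/-!
# Prime values along `x + y = n` for all `n` near concatenated polynomial values, for all the pairs of linear polynomials
# with coefficients up to powers of the logarithm

For almost all `t ≤ X`, for ALL the integers `n` within `log ^ W X` of the integers whose digits in some base
`b ≤ log ^ W X` are those of `g_1(t)`, `g_2(t)`, ..., `g_r(t)` written one after the other, where `g_1, ..., g_r` are ANY
integer polynomials of distinct degrees between `1` and `D` with coefficients of absolute value at most `log ^ W X`, and for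
ALL the admissible families `f₁ = (u + 2) x + u y + a`, `f₂ = v x + (v + 2) y + b` (`0 ≤ u, v ≤ log ^ J X` even,
`|a|, |b| ≤ log ^ W X` odd) at the same time: `n = x + y` with `x, y > 0` and both `|f₁(x, y)|`, `|f₂(x, y)|` prime, and the number
of these `x` in all the windows of `[0, n]` of length at least `n / log ^ A n` is the predicted one. For given bases and
polynomials the concatenations are a thin set: `X` integers of the size `X ^ (deg g_1 + ... + deg g_r)`.

Definitions used from the starting file `LinearPairsEveryModulus` of this problem: `family u v a b`: the family above;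
`AllPrime f x y`: all the `|f_k(x, y)|` are prime; `reps f n y₁ y₂`: the number of the `y₁ < x ≤ y₂`, `0 < x < n`, with
`AllPrime f x (n - x)`; `M u v a b n = (u + v + 2) n + a + b`; `Admissible`: as in the problem. `H560R3.GB.sing m`: the
singular series `2 C₂ ∏_{p ∣ m, p > 2} (p - 1) / (p - 2)`.

Method: `f₁ + f₂ = (u + v + 2) n + a + b` is near a multiple of the concatenation. The integers with a given number of digits
in every block are the values `∑_i b ^ (e_i) g_i(t)` of a polynomial with huge coefficients. An inverse theorem for Weyl sums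
with ALL the coefficients (`Pool.Agent.U837.CC.IWF_all`) shows, one block after the other, that these values and their
multiples have up to powers of the logarithm the least possible additive energy of some order (`Pool.Agent.U837.CC.energy_vec`,
`Pool.Agent.U837.CC.cat_mult`); the theorem of the starting files on Goldbach pairs in windows for such families
(`R459.near_even`) applies. New is also the uniformity in the families (`Pool.Agent.U837.LP.good_unif`).
-/

set_option autoImplicit false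

namespace Pool.Agent.Results.MP_0da313_nt.Concatenations

open Finset Polynomial
open Pool.Agent.Results.MP_0da313_nt.LinearPairsEveryModulus (family AllPrime reps M Admissible)
open Pool.Agent.H560R3.GB (sing)

/-- The number `n` is good: it is `x + y` with `x, y > 0` and `|f₁(x, y)|`, `|f₂(x, y)|` prime, and the number of
such `x` is the predicted one up to the factor `1 ± ε` in all windows `(y₁, y₂]` of `[0, n]` of length at least
`n / (log n)^A` (among them the whole interval). -/
def Good (ε : ℝ) (A : ℕ) (u v : ℕ) (a b : ℤ) (n : ℕ) : Prop :=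
  (∃ x y : ℕ, 0 < x ∧ 0 < y ∧ x + y = n ∧ AllPrime (family u v a b) x y) ∧
  ∀ y₁ y₂ : ℕ, y₁ < y₂ → y₂ ≤ n → (n : ℝ) / Real.log n ^ A ≤ (y₂ : ℝ) - y₁ →
    |(reps (family u v a b) n y₁ y₂ : ℝ) - sing (M u v a b n) * (2 * ((y₂ : ℝ) - y₁) / Real.log n ^ 2)| ≤
      ε * (sing (M u v a b n) * (2 * ((y₂ : ℝ) - y₁) / Real.log n ^ 2))

/-- The number whose digits in base `b`, read from the left to the right, are those of `g(t)`, `g ∈ F`, written one after
the other. -/
noncomputable def concat (b : ℕ) (F : List ℤ[X]) (t : ℕ) : ℕ :=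
  Nat.ofDigits b ((F.reverse.map (fun g => Nat.digits b (g.eval (t : ℤ)).toNat)).flatten)

/-- The base `b` satisfies `2 ≤ b ≤ r`; the list `F` is not empty, and the members of `F` have distinct degrees between `1`
and `D`, coefficients of absolute value at most `r`, and nonnegative values at `t`. -/
def Small (D : ℕ) (r : ℝ) (t b : ℕ) (F : List ℤ[X]) : Prop :=
  (2 ≤ b ∧ (b : ℝ) ≤ r) ∧ F ≠ [] ∧ (F.map natDegree).Nodup ∧
    ∀ g ∈ F, 1 ≤ g.natDegree ∧ g.natDegree ≤ D ∧ (∀ i, |((g.coeff i : ℤ) : ℝ)| ≤ r) ∧ 0 ≤ g.eval (t : ℤ)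

/-- The family with the parameters `u`, `v`, `a`, `b` is among those considered: `u`, `v` are even and at most `R`, and `a`, `b`
are odd and of absolute value at most `r`. -/
def Param (R r : ℝ) (u v : ℕ) (a b : ℤ) : Prop :=
  Even u ∧ Even v ∧ Odd a ∧ Odd b ∧ (u : ℝ) ≤ R ∧ (v : ℝ) ≤ R ∧ |(a : ℝ)| ≤ r ∧ |(b : ℝ)| ≤ r

open Classical in
/-- The number of the `1 ≤ t ≤ X` for which there are a base `d` and a list `F` of polynomials with
`Small D (log ^ W X) t d F`, an integer `n ≥ 0` within `log ^ W X` of `concat d F t` and parameters `u`, `v`, `a`, `b` with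
`Param (log ^ J X) (log ^ W X) u v a b` for which `n` is not good. -/
noncomputable def exceptions (D : ℕ) (ε : ℝ) (A J W X : ℕ) : ℕ :=
  ((Icc 1 X).filter (fun t => ∃ (d : ℕ) (F : List ℤ[X]), Small D (Real.log X ^ W) t d F ∧
    ∃ n : ℕ, |(n : ℝ) - concat d F t| ≤ Real.log X ^ W ∧ ∃ (u v : ℕ) (a b : ℤ),
      Param (Real.log X ^ J) (Real.log X ^ W) u v a b ∧ ¬ Good ε A u v a b n)).card

/-- **Prime values of linear pairs along `x + y = n`, near concatenated polynomial values.** (1) The families are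
admissible. (2) For all `D`, `ε > 0`, `A`, `J`, `W`, `U` and all large `X`, the following holds for all but at most
`X / log ^ U X` of the integers `1 ≤ t ≤ X`: for ALL the bases `d ≤ log ^ W X` and ALL the lists `F` of integer polynomials of
distinct degrees between `1` and `D` with coefficients of absolute value at most `log ^ W X` and nonnegative values at `t`,
ALL the integers `n ≥ 0` within `log ^ W X` of the integer whose digits in base `d` are those of `g(t)`, `g ∈ F`, written one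
after the other, and ALL the even `u, v ≤ log ^ J X` and odd `a`, `b` of absolute value at most `log ^ W X`: `n` is good for the
family `(u + 2) x + u y + a`, `v x + (v + 2) y + b`. -/
theorem result : (∀ (u v : ℕ), Even u → Even v → ∀ (a b : ℤ), Odd a → Odd b → Admissible (family u v a b)) ∧
    ∀ (D : ℕ) (ε : ℝ), 0 < ε → ∀ A J W U : ℕ, ∃ X₀ : ℕ, ∀ X : ℕ, X₀ ≤ X →
      (exceptions D ε A J W X : ℝ) ≤ X / Real.log X ^ U := by
  classical
  refine ⟨fun u v hu hv a b ha hb => LinearPairsEveryModulus.admissible u v (even_iff_two_dvd.1 hu) (even_iff_two_dvd.1 hv)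
    a b ha hb, ?_⟩
  intro D ε hε A J W U
  obtain ⟨δ, hδ, N₁, hgood⟩ := Pool.Agent.U837.LP.good_unif ε hε A (J + 1) (W + 1)
  obtain ⟨x₁, h1⟩ := Pool.Agent.U837.CC.cat_mult_rev D (A + (J + 1) + 1) (W + J + 2) (J + 1) (U + 1) 0 δ hδ
    (fun m => Pool.Agent.W93.PG.WinP δ (A + (J + 1) + 1) m) (fun m _ _ h => h)
  obtain ⟨x₂, h2⟩ := Pool.Agent.H373R2.T7.ev_L' (2 ^ (J + W + 1) + 2 * (D : ℝ) + 8)
  obtain ⟨x₃, h3⟩ := Pool.Agent.H373R2.T7.ev_log' (U + W + J + 6) 4
  refine ⟨x₁ + x₂ + x₃ + (N₁ + 4) ^ 2, fun X hX => ?_⟩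
  have hL8 := h2 X (by omega)
  have hsq := h3 X (by omega)
  obtain ⟨L, hLd⟩ : ∃ L, L = Real.log (X : ℝ) := ⟨_, rfl⟩
  rw [← hLd] at hL8 hsq
  have hp0 : (0 : ℝ) < 2 ^ (J + W + 1) := by positivity
  have hD0 : (0 : ℝ) ≤ D := Nat.cast_nonneg D
  have hL8' : 8 ≤ L := by linarith
  have hL1 : 1 ≤ L := by linarith
  have hL0 : 0 < L := by linarith
  have hX1 : 1 ≤ X := by
    have : 1 ≤ (N₁ + 4) ^ 2 := Nat.one_le_pow _ _ (by omega)
    omega
  have hX0 : (0 : ℝ) < X := by exact_mod_cast hX1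
  have hsX : √(X : ℝ) * √(X : ℝ) = X := Real.mul_self_sqrt hX0.le
  have hs0 : 0 < √(X : ℝ) := Real.sqrt_pos.2 hX0
  have hN₁ : ((N₁ + 4 : ℕ) : ℝ) ≤ √(X : ℝ) := by
    apply Real.le_sqrt_of_sq_le
    exact_mod_cast (by omega : (N₁ + 4) ^ 2 ≤ X)
  have hLW : 1 ≤ L ^ W := one_le_pow₀ hL1
  have hLJ : 1 ≤ L ^ J := one_le_pow₀ hL1
  -- the small arguments
  obtain ⟨E, hE⟩ : ∃ E : Finset ℕ, E = (Icc 1 X).filter (fun t => ∃ (d : ℕ) (F : List ℤ[X]), Small D (Real.log X ^ W) t d F ∧
    ∃ n : ℕ, |(n : ℝ) - concat d F t| ≤ Real.log X ^ W ∧ ∃ (u v : ℕ) (a b : ℤ),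
      Param (Real.log X ^ J) (Real.log X ^ W) u v a b ∧ ¬ Good ε A u v a b n) := ⟨_, rfl⟩
  have hEc : exceptions D ε A J W X = E.card := by rw [hE]; rfl
  obtain ⟨E₁, hE₁⟩ : ∃ E₁ : Finset ℕ, E₁ = E.filter (fun t : ℕ => (t : ℝ) * L ^ (U + 1) < X) := ⟨_, rfl⟩
  obtain ⟨E₂, hE₂⟩ : ∃ E₂ : Finset ℕ, E₂ = E.filter (fun t : ℕ => ¬ (t : ℝ) * L ^ (U + 1) < X) := ⟨_, rfl⟩
  have hcard : E.card = E₁.card + E₂.card := by rw [hE₁, hE₂, card_filter_add_card_filter_not]
  have hc1 : (E₁.card : ℝ) ≤ X / L ^ (U + 1) := by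
    have h3 : E₁ ⊆ Icc 1 ⌊(X : ℝ) / L ^ (U + 1)⌋₊ := by
      intro t ht
      rw [hE₁, mem_filter, hE, mem_filter, mem_Icc] at ht
      rw [mem_Icc]
      refine ⟨ht.1.1.1, Nat.le_floor ?_⟩
      rw [le_div_iff₀ (by positivity)]
      exact ht.2.le
    have h4 := card_le_card h3
    rw [Nat.card_Icc, Nat.add_sub_cancel] at h4
    have h5 : (E₁.card : ℝ) ≤ (⌊(X : ℝ) / L ^ (U + 1)⌋₊ : ℕ) := by exact_mod_cast h4
    exact h5.trans (Nat.floor_le (by positivity))
  have hc2 : (E₂.card : ℝ) ≤ X / L ^ (U + 1) := by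
    rw [hLd]
    refine h1 X (by omega) E₂ ?_
    intro t ht
    rw [← hLd]
    rw [hE₂, mem_filter, hE, mem_filter, ← hLd] at ht
    obtain ⟨⟨g1, d, F, ⟨⟨q1, q2⟩, q3, q4, q5⟩, n, hn, u, v, a, b, ⟨w1, w2, w3, w4, w5, w6, w7, w8⟩, hbad⟩, hbig⟩ := ht
    push Not at hbig
    have ht1 := (mem_Icc.1 g1).1
    -- the size of `n`
    have hpw : L ^ (U + W + J + 6) ≤ √(X : ℝ) / 4 := by linarith
    have htL : 4 * √(X : ℝ) * L ^ (W + J + 5) ≤ t := by
      have e1 : L ^ (U + W + J + 6) = L ^ (U + 1) * L ^ (W + J + 5) := by rw [← pow_add]; congr 1; ring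
      have e2 : 4 * √(X : ℝ) * L ^ (W + J + 5) * L ^ (U + 1) ≤ t * L ^ (U + 1) := by
        calc 4 * √(X : ℝ) * L ^ (W + J + 5) * L ^ (U + 1) = 4 * √(X : ℝ) * L ^ (U + W + J + 6) := by rw [e1]; ring
          _ ≤ 4 * √(X : ℝ) * (√(X : ℝ) / 4) := mul_le_mul_of_nonneg_left hpw (by positivity)
          _ = √(X : ℝ) * √(X : ℝ) := by ring
          _ = X := hsX
          _ ≤ _ := hbig
      exact le_of_mul_le_mul_right e2 (by positivity)
    have hadm : Pool.Agent.U837.CC.Adm D (L ^ W) t F := ⟨q3, q4, q5⟩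
    have hadmr := Pool.Agent.U837.CC.adm_rev hadm
    have hsX4 : (4 : ℝ) ≤ √(X : ℝ) := by
      refine le_trans ?_ hN₁
      push_cast
      have : (0 : ℝ) ≤ N₁ := Nat.cast_nonneg _
      linarith
    have hDt : 2 * (D * L ^ W) ≤ (t : ℝ) := by
      have e1 : 2 * (D : ℝ) ≤ L := by linarith
      have e2 : 2 * (D : ℝ) * L ^ W ≤ L ^ (W + 1) := by
        rw [pow_succ, mul_comm (L ^ W)]
        exact mul_le_mul_of_nonneg_right e1 (by positivity)
      have e3 : L ^ (W + 1) ≤ L ^ (W + J + 5) := pow_le_pow_right₀ hL1 (by omega)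
      have e4 : 0 < L ^ (W + J + 5) := by positivity
      have e5 : 1 * L ^ (W + J + 5) ≤ 4 * √(X : ℝ) * L ^ (W + J + 5) := mul_le_mul_of_nonneg_right (by linarith) e4.le
      linarith
    have hcl := Pool.Agent.U837.CC.cat_low D (L ^ W) hLW t d hDt ht1 F.reverse hadmr
    have hcat : Pool.Agent.U837.CC.cat d F.reverse t = concat d F t := rfl
    rw [hcat] at hcl
    have hcl' : (t : ℝ) ≤ 2 * (concat d F t : ℝ) := by exact_mod_cast hcl
    have hn2 := abs_le.1 hn
    have hLWJ : L ^ W ≤ L ^ (W + J + 5) := pow_le_pow_right₀ hL1 (by omega)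
    have hnX : √(X : ℝ) * L ^ (W + J + 5) ≤ n := by
      have e4 : 1 ≤ L ^ (W + J + 5) := one_le_pow₀ hL1
      nlinarith
    have e5 : 1 ≤ L ^ (W + J + 5) := one_le_pow₀ hL1
    have hnX' : √(X : ℝ) ≤ n := le_trans (le_mul_of_one_le_right hs0.le e5) hnX
    have hnN : N₁ ≤ n := by
      have : ((N₁ + 4 : ℕ) : ℝ) ≤ n := hN₁.trans hnX'
      have : N₁ + 4 ≤ n := by exact_mod_cast this
      omega
    have hn0 : (0 : ℝ) < n := by linarith
    have hlogn : L ≤ 2 * Real.log n := by
      have : Real.log √(X : ℝ) ≤ Real.log n := Real.log_le_log hs0 hnX'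
      rw [Real.log_sqrt hX0.le, ← hLd] at this
      linarith
    have hl2 : 2 ^ (J + W + 1) ≤ 2 * Real.log n := by linarith
    obtain ⟨l, hl⟩ : ∃ l, l = Real.log (n : ℝ) := ⟨_, rfl⟩
    rw [← hl] at hlogn hl2
    have hl0 : 0 < l := by linarith
    have hl3 : (2 : ℝ) ^ (J + W) ≤ l := by
      have : (2 : ℝ) ^ (J + W + 1) = 2 * 2 ^ (J + W) := by rw [pow_succ]; ring
      linarith
    have hJn : L ^ J ≤ l ^ (J + 1) := by
      calc L ^ J ≤ (2 * l) ^ J := pow_le_pow_left₀ hL0.le hlogn _
        _ = 2 ^ J * l ^ J := mul_pow _ _ _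
        _ ≤ l * l ^ J := by
            apply mul_le_mul_of_nonneg_right _ (by positivity)
            exact le_trans (pow_le_pow_right₀ (by norm_num) (by omega)) hl3
        _ = l ^ (J + 1) := by ring
    have hWn : L ^ W ≤ l ^ (W + 1) := by
      calc L ^ W ≤ (2 * l) ^ W := pow_le_pow_left₀ hL0.le hlogn _
        _ = 2 ^ W * l ^ W := mul_pow _ _ _
        _ ≤ l * l ^ W := by
            apply mul_le_mul_of_nonneg_right _ (by positivity)
            exact le_trans (pow_le_pow_right₀ (by norm_num) (by omega)) hl3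
        _ = l ^ (W + 1) := by ring
    have ha' : ((a.natAbs : ℕ) : ℝ) ≤ L ^ W := by rw [Nat.cast_natAbs]; push_cast; exact w7
    have hb' : ((b.natAbs : ℕ) : ℝ) ≤ L ^ W := by rw [Nat.cast_natAbs]; push_cast; exact w8
    have habn : a.natAbs + b.natAbs + 1 ≤ n := by
      have h6 : 4 * L ^ W ≤ √(X : ℝ) * L ^ (W + J + 5) := mul_le_mul hsX4 hLWJ (by positivity) hs0.le
      have : ((a.natAbs : ℕ) : ℝ) + ((b.natAbs : ℕ) : ℝ) + 1 ≤ n := by linarith
      exact_mod_cast this
    have hMint := LinearPairsEveryModulus.M_int u v a b n (by omega)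
    -- the multiple
    refine ⟨g1, d, F, q1, q2.trans (pow_le_pow_right₀ hL1 (by omega)), hadm.mono (pow_le_pow_right₀ hL1 (by omega)),
      u + v + 2, M u v a b n, by omega, ?_, ?_, ?_, ?_, ?_⟩
    · push_cast
      have e1 : L ^ (J + 1) = L ^ J * L := pow_succ _ _
      rw [e1]
      nlinarith
    · have h6 : (0 : ℤ) < M u v a b n := by
        rw [hMint]
        have h7 : (2 : ℤ) * n ≤ ((u : ℤ) + v + 2) * n := by
          apply mul_le_mul_of_nonneg_right _ (by positivity)
          omega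
        omega
      exact_mod_cast h6
    · have h6 : Even ((M u v a b n : ℕ) : ℤ) := by
        rw [hMint]
        obtain ⟨u', rfl⟩ := w1
        obtain ⟨v', rfl⟩ := w2
        obtain ⟨a', rfl⟩ := w3
        obtain ⟨b', rfl⟩ := w4
        exact ⟨(u' + v' + 1) * n + a' + b' + 1, by push_cast; ring⟩
      exact_mod_cast h6
    · have hMr : ((M u v a b n : ℕ) : ℝ) = ((u : ℝ) + v + 2) * n + a + b := by exact_mod_cast hMint
      rw [hMr]
      have e0 : ((u : ℝ) + v + 2) * n + a + b - ((u + v + 2 : ℕ) : ℝ) *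
          (Nat.ofDigits d ((F.reverse.map (fun g => Nat.digits d (g.eval (t : ℤ)).toNat)).flatten) : ℕ) =
          ((u : ℝ) + v + 2) * ((n : ℝ) - concat d F t) + a + b := by
        unfold concat
        push_cast
        ring
      rw [e0]
      have e1 : |((u : ℝ) + v + 2) * ((n : ℝ) - concat d F t) + a + b| ≤
          |((u : ℝ) + v + 2) * ((n : ℝ) - concat d F t)| + |(a : ℝ)| + |(b : ℝ)| := by
        refine (abs_add_le _ _).trans ?_
        exact add_le_add (abs_add_le _ _) le_rfl
      refine e1.trans ?_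
      have hu0 : (0 : ℝ) ≤ (u : ℝ) + v + 2 := by positivity
      rw [abs_mul, abs_of_nonneg hu0]
      have e2 : ((u : ℝ) + v + 2) * |(n : ℝ) - concat d F t| ≤ (2 * L ^ J + 2) * L ^ W :=
        mul_le_mul (by linarith) hn (abs_nonneg _) (by positivity)
      have e3 : L ^ (W + J + 2) = L ^ J * L ^ W * (L * L) := by ring
      have e4 : L ^ W ≤ L ^ J * L ^ W := le_mul_of_one_le_left (by positivity) hLJ
      have e6 : 64 ≤ L * L := by nlinarith
      have e7 : 0 < L ^ J * L ^ W := by positivity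
      rw [e3]
      nlinarith
    · intro hW
      exact hbad (hgood n hnN u v (even_iff_two_dvd.1 w1) (even_iff_two_dvd.1 w2) a b w3 w4 (by rw [← hl]; exact w5.trans hJn)
        (by rw [← hl]; exact w6.trans hJn) (by rw [← hl]; exact ha'.trans hWn) (by rw [← hl]; exact hb'.trans hWn) hW)
  rw [hEc, hcard, ← hLd]
  push_cast
  calc (E₁.card : ℝ) + E₂.card ≤ X / L ^ (U + 1) + X / L ^ (U + 1) := add_le_add hc1 hc2
    _ = X / L ^ (U + 1) * 2 := by ring
    _ ≤ X / L ^ (U + 1) * L := mul_le_mul_of_nonneg_left (by linarith) (by positivity)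
    _ = X / L ^ U := by
        rw [pow_succ]
        field_simp

end Pool.Agent.Results.MP_0da313_nt.Concatenations
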