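import Pool.Agent.U497.AW.PolyWin

/-!
# EVERY line `x + y = n`: the expected number of almost prime values of arbitrary polynomials in all windows around almost all `x`

Let `f_1, …, f_k` be ANY polynomials in `x, y` with integer coefficients and `n` ANY large integer, such that the polynomials
`g_i(x) = f_i(x, n - x)` are not constant, of degree at most `d`, and have no fixed prime divisor. Let `z` be a certain number between two
small powers of `n` and `V = ∏_{p ≤ z} (1 - ω(p) / p)`, where `ω(p)` is the number of the classes `x` modulo `p` for which `p` divides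
some `f_i(x, n - x)`. For all but `ε n` of the `x < n`, ALL the windows `(u, v]` around `x` of length at least `K / V` contain the
expected number `(v - u) V` of solutions, up to a relative error `ε`: of integers `x` for which no `f_i(x, n - x)` has a prime factor
`≤ z`. Then each `f_i(x, n - x)` has a bounded number of prime factors. `δ`, `K` and the bound for `n` depend only on `k, d, ε, θ`.

Proof (`Pool/Agent/U497/AW`): second moments of the numbers of the solutions in short intervals, with an average of the singular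
series uniform in the polynomials, and a maximal inequality for all windows at once.
-/

set_option autoImplicit false

namespace Pool.Agent.Results.MP_0da313_nt.EveryLine

open Finset Polynomial

/-- The value `f(x, y)` of a polynomial `f` in two variables. -/
noncomputable def value (f : ℤ[X][X]) (x y : ℤ) : ℤ := (f.eval (C y)).eval x

/-- The polynomial `f(x, n - x)` in one variable. -/
noncomputable def line (f : ℤ[X][X]) (n : ℕ) : ℤ[X] := f.eval (C (n : ℤ) - X)

/-- On the line `x + y = n` the polynomials `f_i(x, n - x)` are not constant, of degree at most `d`, and without fixed prime divisor. -/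
structure Conditions {k : ℕ} (d : ℕ) (f : Fin k → ℤ[X][X]) (n : ℕ) : Prop where
  nonconstant : ∀ i, 1 ≤ (line (f i) n).natDegree
  degree : ∀ i, (line (f i) n).natDegree ≤ d
  locally : ∀ p : ℕ, p.Prime → ∃ x : ℤ, ∀ i, ¬ (p : ℤ) ∣ value (f i) x (n - x)

/-- The number of the classes `x` modulo `p` for which `p` divides some `f_i(x, n - x)`. -/
noncomputable def omega {k : ℕ} (f : Fin k → ℤ[X][X]) (n p : ℕ) : ℕ :=
  Set.ncard {x : ℕ | x < p ∧ ∃ i, (p : ℤ) ∣ value (f i) x (n - x)}

/-- The expected density `∏_{p ≤ z} (1 - ω(p) / p)`. -/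
noncomputable def density {k : ℕ} (f : Fin k → ℤ[X][X]) (n z : ℕ) : ℝ :=
  ∏ p ∈ (Icc 1 z).filter Nat.Prime, (1 - (omega f n p : ℝ) / p)

/-- `a` has no prime factor `p ≤ z`. -/
def Rough (z : ℕ) (a : ℤ) : Prop := ∀ p : ℕ, p.Prime → p ≤ z → ¬ (p : ℤ) ∣ a

/-- The number of the `x` with `u < x ≤ v` for which no `f_i(x, n - x)` has a prime factor `p ≤ z`. -/
noncomputable def count {k : ℕ} (f : Fin k → ℤ[X][X]) (n z u v : ℕ) : ℕ :=
  Set.ncard {x : ℕ | u < x ∧ x ≤ v ∧ ∀ i, Rough z (value (f i) x (n - x))}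

/-- The `x` which lie in SOME window `(u, v]` with `0 ≤ u < v < n` and `V (v - u) ≥ K`, `V = density f n z`, in which the number
of solutions differs from `V (v - u)` by more than `ε V (v - u)`. -/
def exceptions {k : ℕ} (f : Fin k → ℤ[X][X]) (n : ℕ) (ε K : ℝ) (z : ℕ) : Set ℕ :=
  {x : ℕ | ∃ u v : ℕ, u < x ∧ x ≤ v ∧ v < n ∧ K ≤ density f n z * ((v : ℝ) - u) ∧
    ε * (density f n z * ((v : ℝ) - u)) < |(count f n z u v : ℝ) - density f n z * ((v : ℝ) - u)|}

lemma eval_line (f : ℤ[X][X]) (n : ℕ) (x : ℤ) : (line f n).eval x = value f x (n - x) := by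
  unfold line value
  induction f using Polynomial.induction_on' with
  | add p q hp hq => simp only [eval_add, hp, hq]
  | monomial j a => simp only [eval_monomial, eval_mul, eval_pow, eval_sub, eval_C, eval_X]

/-- **Theorem.** -/
theorem result (k d : ℕ) (ε θ : ℝ) (hε : 0 < ε) (hθ : 0 < θ) :
    ∃ δ K : ℝ, 0 < δ ∧ 0 < K ∧ ∃ N₀ : ℕ, ∀ n : ℕ, N₀ ≤ n → ∃ z : ℕ, (n : ℝ) ^ δ ≤ z ∧ (z : ℝ) ≤ (n : ℝ) ^ θ ∧
      ∀ f : Fin k → ℤ[X][X], Conditions d f n →
        ((exceptions f n ε K z).ncard : ℝ) ≤ ε * n ∧
        ∀ (A : ℕ) (x : ℕ) (i : Fin k), Rough z (value (f i) x (n - x)) → |value (f i) x (n - x)| ≤ (n : ℤ) ^ A →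
          value (f i) x (n - x) ≠ 0 ∧ ((value (f i) x (n - x)).natAbs.primeFactorsList.length : ℝ) ≤ A / δ := by
  classical
  obtain ⟨δ, K, hδ, hK, H₀, h1⟩ := Pool.Agent.U497.AW.polyWin k d ε θ hε hθ
  obtain ⟨H₁, hH₁⟩ : ∃ H₁ : ℕ, ∀ H : ℕ, H₁ ≤ H → (2 : ℝ) ≤ (H : ℝ) ^ δ := by
    have h2 : Filter.Tendsto (fun H : ℕ => (H : ℝ) ^ δ) Filter.atTop Filter.atTop :=
      (tendsto_rpow_atTop hδ).comp tendsto_natCast_atTop_atTop
    exact Filter.eventually_atTop.1 (h2.eventually_ge_atTop 2)
  refine ⟨δ, K, hδ, hK, H₀ + H₁ + 2, fun n hn => ?_⟩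
  obtain ⟨z, hz1, hz2, hz3⟩ := h1 n (by omega)
  have hz : 2 ≤ z := by
    have h2 := (hH₁ n (by omega)).trans hz1
    exact_mod_cast h2
  refine ⟨z, hz1, hz2, fun f hf => ⟨?_, fun A x i hr hA => ?_⟩⟩
  · obtain ⟨g, hg⟩ : ∃ g : Fin k → ℤ[X], g = fun i => line (f i) n := ⟨_, rfl⟩
    have hev : ∀ (i : Fin k) (x : ℤ), (g i).eval x = value (f i) x (n - x) := by
      intro i x
      rw [hg]
      exact eval_line (f i) n x
    have hadm : Pool.Agent.U497.AW.Adm k d g := by
      refine ⟨?_, ?_, fun p hp => ?_⟩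
      · rw [hg]
        exact hf.nonconstant
      · rw [hg]
        exact hf.degree
      · obtain ⟨x, hx⟩ := hf.locally p hp
        refine ⟨x, fun i => ?_⟩
        rw [hev]
        exact hx i
    have hom : ∀ p, Pool.Agent.U497.AW.om g p = omega f n p := by
      intro p
      unfold Pool.Agent.U497.AW.om omega
      rw [← Set.ncard_coe_finset]
      congr 1
      ext x
      rw [mem_coe, mem_filter, mem_range]
      simp only [hev]
      rfl
    have hdens : Pool.Agent.U497.AW.dens g z = density f n z := by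
      unfold Pool.Agent.U497.AW.dens density
      apply prod_congr rfl
      intro p _
      rw [hom]
    have hcnt : ∀ u v, Pool.Agent.U497.AW.cntW g z u v = count f n z u v := by
      intro u v
      unfold Pool.Agent.U497.AW.cntW count
      congr 1
      ext x
      simp only [Set.mem_ofPred_eq, hev]
      rfl
    have h2 := (hz3 g hadm 0).1
    refine le_trans ?_ h2
    have hfin : (Pool.Agent.U497.AW.excW g ε K z 0 n).Finite := by
      apply (Set.finite_Iic n).subset
      rintro x ⟨u, v, -, h4, h5, h6, -⟩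
      rw [Set.mem_Iic]
      omega
    refine Nat.cast_le.2 (Set.ncard_le_ncard ?_ hfin)
    rintro x ⟨u, v, h4, h5, h6, h7, h8⟩
    refine ⟨u, v, Nat.zero_le _, h4, h5, by omega, ?_, ?_⟩
    · rw [hdens]
      exact h7
    · rw [hdens, hcnt]
      exact h8
  · have hne : value (f i) x (n - x) ≠ 0 := by
      intro h0
      apply hr 2 Nat.prime_two hz
      rw [h0]
      exact dvd_zero _
    refine ⟨hne, ?_⟩
    obtain ⟨y, hy⟩ : ∃ y : ℕ, y = (value (f i) x (n - x)).natAbs := ⟨_, rfl⟩
    have hy0 : y ≠ 0 := by rw [hy]; exact Int.natAbs_ne_zero.2 hne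
    rw [← hy]
    have hyA : y ≤ n ^ A := by
      have h2 : (y : ℤ) ≤ (n : ℤ) ^ A := by
        rw [hy, Int.natCast_natAbs]
        exact hA
      exact_mod_cast h2
    have hlist : z ^ y.primeFactorsList.length ≤ y := by
      have h2 : z ^ y.primeFactorsList.length ≤ y.primeFactorsList.prod := by
        apply List.pow_card_le_prod
        intro p hp
        have hpp := Nat.prime_of_mem_primeFactorsList hp
        have hpd := Nat.dvd_of_mem_primeFactorsList hp
        by_contra hcon
        apply hr p hpp (by omega)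
        rw [hy] at hpd
        exact Int.natCast_dvd.2 hpd
      rwa [Nat.prod_primeFactorsList hy0] at h2
    have hn0 : (0 : ℝ) < n := by exact_mod_cast (by omega : 0 < n)
    rw [le_div_iff₀ hδ]
    have h2 : ((n : ℝ) ^ δ) ^ y.primeFactorsList.length ≤ (n : ℝ) ^ A := by
      calc ((n : ℝ) ^ δ) ^ y.primeFactorsList.length ≤ (z : ℝ) ^ y.primeFactorsList.length := by gcongr
        _ ≤ y := by exact_mod_cast hlist
        _ ≤ (n : ℝ) ^ A := by exact_mod_cast hyA
    rw [← Real.rpow_natCast, ← Real.rpow_mul hn0.le, ← Real.rpow_natCast] at h2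
    have h3 := (Real.rpow_le_rpow_left_iff (by exact_mod_cast (by omega : 1 < n) : (1 : ℝ) < n)).1 h2
    linarith

end Pool.Agent.Results.MP_0da313_nt.EveryLine
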