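import Pool.Agent.U832.RG.LinLaw

/-!
# Linear families along `x + y = n`, for EVERY large `n`: a Poisson process of almost prime values

Let `f_1, …, f_k`, `k ≥ 2`, be an arbitrary admissible family of linear polynomials in `x, y`, pairwise distinct up
to the sign (for instance `2 x - 1`, `2 y + 1` of the binary Goldbach problem, or `x, x + 2, y, y + 2`). For EVERY
large `n` the `x` for which no `f_i (x, n - x)` has a prime factor `≤ n ^ (1 / r)` have the expected number in all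
intervals of length `≥ n ^ θ`, and they form a Poisson process: the numbers of such `x` in disjoint windows, seen
from an arbitrary such `x` or from an arbitrary integer, are independent Poisson variables.
-/

set_option autoImplicit false

namespace Pool.Agent.Results.MP_0da313_nt.LinearFamilies

open Finset Filter Polynomial Pool.Agent.U832.RG

variable {k : ℕ}

/-- A linear polynomial `α x + β y + γ`. -/
structure Lin where
  /-- the coefficient of `x` -/
  α : ℤ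
  /-- the coefficient of `y` -/
  β : ℤ
  /-- the constant term -/
  γ : ℤ

/-- The polynomial `f (x, n - x)`. -/
noncomputable def g (f : Lin) (n : ℕ) : ℤ[X] := C f.α * X + C f.β * (C (n : ℤ) - X) + C f.γ

/-- The two conditions of the question for `n`. -/
def Conditions (f : Fin k → Lin) (n : ℕ) : Prop :=
  (∀ i, Irreducible (g (f i) n)) ∧ ∀ p : ℕ, p.Prime → ∃ x : ℤ, ¬ (p : ℤ) ∣ ∏ i, (g (f i) n).eval x

/-- The family is admissible: its members are not constant and the two conditions hold for all large `n`. -/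
def Admissible (f : Fin k → Lin) : Prop :=
  (∀ i, (f i).α ≠ 0 ∨ (f i).β ≠ 0) ∧ ∃ N₀ : ℕ, ∀ n : ℕ, N₀ ≤ n → Conditions f n

/-- The `x` such that no prime `p ≤ y` divides one of the numbers `f_i (x, n - x)`. -/
def Rough (f : Fin k → Lin) (n y : ℕ) : Set ℕ :=
  {x | ∀ p : ℕ, p.Prime → p ≤ y → ∀ i, ¬ (p : ℤ) ∣ (g (f i) n).eval (x : ℤ)}

open Classical in
/-- The number of the residue classes `x` modulo `p` for which `p` divides some `f_i (x, n - x)`. -/
noncomputable def w (f : Fin k → Lin) (n p : ℕ) : ℕ :=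
  ((range p).filter (fun x : ℕ => ∃ i, (p : ℤ) ∣ (g (f i) n).eval (x : ℤ))).card

/-- The product of `1 - w p / p` over the primes `p ≤ y`. -/
noncomputable def V (f : Fin k → Lin) (n y : ℕ) : ℝ :=
  ∏ p ∈ (Icc 1 y).filter Nat.Prime, (1 - (w f n p : ℝ) / p)

section aux

open Pool.Agent.TH464.PO Pool.Agent.H373R2.T7 Pool.Agent.W123.RP
open Pool.Agent.W123.RU.Poly (Q)

lemma g_eq (f : Lin) (n : ℕ) : g f n = C (f.α - f.β) * X + C (f.β * n + f.γ) := by
  unfold g
  simp only [map_sub, map_add, map_mul]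
  ring

lemma g_eval (f : Lin) (n : ℕ) (x : ℤ) : (g f n).eval x = (f.α - f.β) * x + (f.β * n + f.γ) := by
  rw [g_eq]
  simp

/-- the sign -/
def sg (f : Lin) : ℤ := if 0 < f.α - f.β then 1 else -1

lemma sg_sq (f : Lin) : sg f * sg f = 1 := by
  unfold sg
  split_ifs <;> norm_num

lemma sg_abs (f : Lin) : |sg f| = 1 := by
  unfold sg
  split_ifs <;> norm_num

lemma sg_dvd (f : Lin) (p z : ℤ) : p ∣ sg f * z ↔ p ∣ z := by
  unfold sg
  split_ifs
  · rw [one_mul]
  · rw [neg_one_mul, dvd_neg]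

/-- the slopes -/
def sa (f : Fin k → Lin) : Fin k → ℤ := fun i => sg (f i) * ((f i).α - (f i).β)

/-- the constant terms -/
def sb (f : Fin k → Lin) (n : ℕ) : Fin k → ℤ := fun i => sg (f i) * ((f i).β * n + (f i).γ)

lemma sQ (f : Fin k → Lin) (n p m : ℕ) :
    Q (ls (sa f) (sb f n)) p m ↔ ∃ i, (p : ℤ) ∣ (g (f i) n).eval (m : ℤ) := by
  rw [ls_Q]
  apply exists_congr
  intro i
  unfold sa sb
  rw [show sg (f i) * ((f i).α - (f i).β) * (m : ℤ) + sg (f i) * ((f i).β * n + (f i).γ) =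
    sg (f i) * (((f i).α - (f i).β) * (m : ℤ) + ((f i).β * n + (f i).γ)) by ring, sg_dvd, g_eval]

lemma pz_eq (y : ℕ) : pz y = (Icc 1 y).filter Nat.Prime := by
  ext p
  rw [mem_pz, mem_filter, mem_Icc]
  constructor
  · exact fun h => ⟨⟨h.2.one_lt.le, h.1⟩, h.2⟩
  · exact fun h => ⟨h.1.2, h.2⟩

lemma rough_iff (f : Fin k → Lin) (n y m : ℕ) : m ∈ Rough f n y ↔ Sf (Q (ls (sa f) (sb f n))) y m := by
  constructor
  · intro h p hp
    rw [sQ]
    push Not
    exact h p (mem_pz.1 hp).2 (mem_pz.1 hp).1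
  · intro h p hp hpy
    have h1 := h p (mem_pz.2 ⟨hpy, hp⟩)
    rw [sQ] at h1
    push Not at h1
    exact h1

lemma w_eq (f : Fin k → Lin) (n p : ℕ) : nuB (Q (ls (sa f) (sb f n))) p = w f n p := by
  classical
  unfold w nuB
  congr 1
  ext m
  rw [mem_filter, mem_filter, sQ]

lemma V_eq (f : Fin k → Lin) (n y : ℕ) : Vq (Q (ls (sa f) (sb f n))) y = V f n y := by
  unfold Vq V
  rw [pz_eq]
  apply Finset.prod_congr rfl
  intro p _
  rw [w_eq f n p]

/-- constants are not irreducible for all `n` -/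
lemma ne_slope (f : Lin) (h0 : f.α ≠ 0 ∨ f.β ≠ 0) (N₀ : ℕ) (h : ∀ n : ℕ, N₀ ≤ n → Irreducible (g f n)) :
    f.α ≠ f.β := by
  intro he
  have hb : f.β ≠ 0 := by
    rcases h0 with h0 | h0
    · rw [← he]; exact h0
    · exact h0
  have hg : ∀ n : ℕ, g f n = C (f.β * n + f.γ) := by
    intro n
    rw [g_eq, he]
    simp
  -- a number `N₁ ≥ N₀` for which the value is at least 2 in absolute value
  obtain ⟨N₁, hN₁, hv⟩ : ∃ N₁ : ℕ, N₀ ≤ N₁ ∧ 2 ≤ |f.β * N₁ + f.γ| := by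
    refine ⟨N₀ + (f.γ.natAbs + 2), by omega, ?_⟩
    have h1 : |f.β| * ((N₀ + (f.γ.natAbs + 2) : ℕ) : ℤ) - |f.γ| ≤ |f.β * ((N₀ + (f.γ.natAbs + 2) : ℕ) : ℤ) + f.γ| := by
      have := abs_sub_abs_le_abs_sub (f.β * ((N₀ + (f.γ.natAbs + 2) : ℕ) : ℤ)) (-f.γ)
      rw [abs_neg, sub_neg_eq_add, abs_mul, Nat.abs_cast] at this
      exact this
    have h2 : 1 ≤ |f.β| := Int.one_le_abs hb
    have h3 : (1 : ℤ) * ((N₀ + (f.γ.natAbs + 2) : ℕ) : ℤ) ≤ |f.β| * ((N₀ + (f.γ.natAbs + 2) : ℕ) : ℤ) :=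
      mul_le_mul_of_nonneg_right h2 (Nat.cast_nonneg _)
    push_cast at h1 h3 ⊢
    have h5 : (0 : ℤ) ≤ N₀ := Nat.cast_nonneg _
    linarith
  obtain ⟨v, hvdef⟩ : ∃ v, v = f.β * (N₁ : ℤ) + f.γ := ⟨_, rfl⟩
  rw [← hvdef] at hv
  have h5 := h (N₁ + 3 * v.natAbs) (by omega)
  rw [hg] at h5
  have h6 : ∃ s : ℤ, |s| = 1 ∧ ((v.natAbs : ℕ) : ℤ) = s * v := by
    rcases Int.natAbs_eq v with e | e
    · exact ⟨1, abs_one, by rw [one_mul]; exact e.symm⟩
    · refine ⟨-1, by norm_num, ?_⟩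
      rw [neg_one_mul]
      linarith
  obtain ⟨s, hs, hvs⟩ := h6
  have h7 : f.β * ((N₁ + 3 * v.natAbs : ℕ) : ℤ) + f.γ = v * (1 + 3 * f.β * s) := by
    have hvs' : |v| = s * v := by rw [← Int.natCast_natAbs]; exact hvs
    push_cast
    rw [hvs', hvdef]
    ring
  rw [h7, map_mul] at h5
  rcases h5.isUnit_or_isUnit rfl with h8 | h8
  · rw [Polynomial.isUnit_C, Int.isUnit_iff_abs_eq] at h8
    linarith
  · rw [Polynomial.isUnit_C, Int.isUnit_iff_abs_eq] at h8
    have h9 : |3 * f.β * s| - |(1 : ℤ)| ≤ |1 + 3 * f.β * s| := by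
      have := abs_sub_abs_le_abs_sub (3 * f.β * s) (-1)
      rw [abs_neg, sub_neg_eq_add, add_comm] at this
      exact this
    rw [abs_mul, abs_mul, hs, mul_one, abs_one, h8] at h9
    have h10 : 1 ≤ |f.β| := Int.one_le_abs hb
    have h11 : |(3 : ℤ)| = 3 := by norm_num
    rw [h11] at h9
    linarith

lemma cop_of (f : Lin) (n : ℕ) (h : Irreducible (g f n)) (hne : f.α ≠ f.β) :
    IsCoprime (f.α - f.β) (f.β * n + f.γ) := by
  rw [Int.isCoprime_iff_gcd_eq_one]
  have h1 : (g f n).natDegree ≠ 0 := by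
    rw [g_eq, natDegree_linear (sub_ne_zero.2 hne)]
    exact one_ne_zero
  have h2 := h.isPrimitive h1
  have h3 : IsUnit ((Int.gcd (f.α - f.β) (f.β * n + f.γ) : ℕ) : ℤ) := by
    apply h2
    rw [g_eq]
    apply dvd_add
    · exact dvd_mul_of_dvd_left (map_dvd C (Int.gcd_dvd_left ..)) _
    · exact map_dvd C (Int.gcd_dvd_right ..)
  rw [Int.isUnit_iff_natAbs_eq, Int.natAbs_natCast] at h3
  exact h3

lemma sa_ls (f : Fin k → Lin) (hne : ∀ i, (f i).α ≠ (f i).β) (n : ℕ) (hc : Conditions f n)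
    (hd : ∀ i j, i ≠ j → f i ≠ f j ∧ ¬ ((f i).α = -(f j).α ∧ (f i).β = -(f j).β ∧ (f i).γ = -(f j).γ))
    (hn : ∀ i, 2 * |(f i).γ| < n) : LF (sa f) (sb f n) where
  pos i := by
    unfold sa sg
    have := sub_ne_zero.2 (hne i)
    split_ifs with h
    · rw [one_mul]; exact h
    · rw [neg_one_mul]
      omega
  dist i j h1 h2 := by
    by_contra hij
    unfold sa at h1
    unfold sb at h2
    obtain ⟨τ, hτ⟩ : ∃ τ, τ = sg (f i) * sg (f j) := ⟨_, rfl⟩
    have e1 : (f i).α - (f i).β = τ * ((f j).α - (f j).β) := by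
      have := congrArg (fun z => sg (f i) * z) h1
      simp only [← mul_assoc, sg_sq, one_mul] at this
      rw [this, hτ]
    have e2 : (f i).β * n + (f i).γ = τ * ((f j).β * n + (f j).γ) := by
      have := congrArg (fun z => sg (f i) * z) h2
      simp only [← mul_assoc, sg_sq, one_mul] at this
      rw [this, hτ]
    have hτ1 : τ = 1 ∨ τ = -1 := by
      have : |τ| = 1 := by rw [hτ, abs_mul, sg_abs, sg_abs, one_mul]
      exact (abs_eq (by norm_num)).1 this
    have hτa : |τ| = 1 := by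
      rcases hτ1 with h | h <;> rw [h] <;> norm_num
    have e3 : ((f i).β - τ * (f j).β) * n = τ * (f j).γ - (f i).γ := by linarith
    have e4 : (f i).β - τ * (f j).β = 0 := by
      by_contra h
      have h3 : 1 ≤ |(f i).β - τ * (f j).β| := Int.one_le_abs h
      have h4 : |((f i).β - τ * (f j).β) * n| = |τ * (f j).γ - (f i).γ| := by rw [e3]
      rw [abs_mul, Nat.abs_cast] at h4
      have h5 : |τ * (f j).γ - (f i).γ| ≤ |(f j).γ| + |(f i).γ| := by
        refine (abs_sub _ _).trans ?_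
        rw [abs_mul, hτa, one_mul]
      have h6 := hn i
      have h7 := hn j
      have h8 : (1 : ℤ) * n ≤ |(f i).β - τ * (f j).β| * n := mul_le_mul_of_nonneg_right h3 (Nat.cast_nonneg _)
      linarith
    rw [e4, zero_mul] at e3
    have hh := hd i j hij
    rcases hτ1 with h | h
    · apply hh.1
      rw [h] at e1 e3 e4
      rcases hfi : f i with ⟨a1, a2, a3⟩
      rcases hfj : f j with ⟨b1, b2, b3⟩
      rw [hfi, hfj] at e1 e3 e4
      simp only at e1 e3 e4
      simp only [Lin.mk.injEq]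
      refine ⟨by linarith, by linarith, by linarith⟩
    · apply hh.2
      rw [h] at e1 e3 e4
      refine ⟨by linarith, by linarith, by linarith⟩
  cop i := by
    unfold sa sb
    have h1 := cop_of (f i) n (hc.1 i) (hne i)
    unfold sg
    split_ifs
    · rw [one_mul, one_mul]; exact h1
    · rw [neg_one_mul, neg_one_mul]
      exact h1.neg_neg
  adm p hp := by
    obtain ⟨x, hx⟩ := hc.2 p hp
    have hp0 : (0 : ℤ) < p := by exact_mod_cast hp.pos
    refine ⟨(x % p).toNat, fun i hi => hx ?_⟩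
    have h1 : (((x % (p : ℤ)).toNat : ℕ) : ℤ) = x % p := Int.toNat_of_nonneg (Int.emod_nonneg _ hp0.ne')
    refine dvd_trans ?_ (Finset.dvd_prod_of_mem (fun i => (g (f i) n).eval x) (mem_univ i))
    rw [h1] at hi
    unfold sa sb at hi
    rw [show sg (f i) * ((f i).α - (f i).β) * (x % (p : ℤ)) + sg (f i) * ((f i).β * n + (f i).γ) =
      sg (f i) * (((f i).α - (f i).β) * (x % (p : ℤ)) + ((f i).β * n + (f i).γ)) by ring, sg_dvd] at hi
    rw [g_eval]
    have h2 : (p : ℤ) ∣ ((f i).α - (f i).β) * (x - x % p) := Dvd.dvd.mul_left (Int.dvd_self_sub_emod) _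
    have h3 := dvd_add hi h2
    rwa [show ((f i).α - (f i).β) * (x % (p : ℤ)) + ((f i).β * n + (f i).γ) +
      ((f i).α - (f i).β) * (x - x % (p : ℤ)) = ((f i).α - (f i).β) * x + ((f i).β * n + (f i).γ) by ring] at h3

lemma bd (f : Fin k → Lin) : ∀ᶠ n : ℕ in atTop, (∀ i, |((sa f i : ℤ) : ℝ)| ≤ (n : ℝ) ^ (2 : ℝ)) ∧
    ∀ i, |((sb f n i : ℤ) : ℝ)| ≤ (n : ℝ) ^ (2 : ℝ) := by
  obtain ⟨M, hM⟩ : ∃ M : ℕ, ∀ i, |(f i).α| + |(f i).β| + |(f i).γ| ≤ M := by
    refine ⟨(∑ i, (|(f i).α| + |(f i).β| + |(f i).γ|)).toNat, fun i => ?_⟩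
    have h1 : |(f i).α| + |(f i).β| + |(f i).γ| ≤ ∑ i, (|(f i).α| + |(f i).β| + |(f i).γ|) :=
      Finset.single_le_sum (f := fun i => |(f i).α| + |(f i).β| + |(f i).γ|) (fun i _ => by positivity) (mem_univ i)
    exact h1.trans (Int.self_le_toNat _)
  filter_upwards [eventually_ge_atTop (max M 1)] with n hn
  have hnM : M ≤ n := (le_max_left _ _).trans hn
  have hn1 : 1 ≤ n := (le_max_right _ _).trans hn
  have hnn : (n : ℝ) ^ (2 : ℝ) = (((n * n : ℕ) : ℤ) : ℝ) := by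
    rw [Real.rpow_two, sq]
    push_cast
    ring
  constructor
  · intro i
    rw [hnn, ← Int.cast_abs, Int.cast_le]
    unfold sa
    rw [abs_mul, sg_abs, one_mul]
    have h1 := hM i
    have h2 := abs_sub (f i).α (f i).β
    have h3 : (0 : ℤ) ≤ |(f i).γ| := abs_nonneg _
    have h4 : (M : ℤ) ≤ n := by exact_mod_cast hnM
    have h5 : (n : ℤ) * 1 ≤ n * n := mul_le_mul_of_nonneg_left (by exact_mod_cast hn1) (Nat.cast_nonneg _)
    push_cast
    linarith
  · intro i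
    rw [hnn, ← Int.cast_abs, Int.cast_le]
    unfold sb
    rw [abs_mul, sg_abs, one_mul]
    have h1 := hM i
    have h2 := abs_add_le ((f i).β * n) (f i).γ
    rw [abs_mul, Nat.abs_cast] at h2
    have h3 : (0 : ℤ) ≤ |(f i).α| := abs_nonneg _
    have h4 : (M : ℤ) ≤ n := by exact_mod_cast hnM
    have h5 : |(f i).γ| * 1 ≤ |(f i).γ| * n := mul_le_mul_of_nonneg_left (by exact_mod_cast hn1) (abs_nonneg _)
    have h6 : (|(f i).β| + |(f i).γ|) * (n : ℤ) ≤ n * n :=
      mul_le_mul_of_nonneg_right (by linarith) (Nat.cast_nonneg _)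
    push_cast
    nlinarith

lemma ok (f : Fin k → Lin) (hf : Admissible f)
    (hd : ∀ i j, i ≠ j → f i ≠ f j ∧ ¬ ((f i).α = -(f j).α ∧ (f i).β = -(f j).β ∧ (f i).γ = -(f j).γ)) :
    ∀ᶠ n : ℕ in atTop, LF (sa f) (sb f n) ∧ (∀ i, |((sa f i : ℤ) : ℝ)| ≤ (n : ℝ) ^ (2 : ℝ)) ∧
      ∀ i, |((sb f n i : ℤ) : ℝ)| ≤ (n : ℝ) ^ (2 : ℝ) := by
  obtain ⟨h0, N₀, h1⟩ := hf
  have hne : ∀ i, (f i).α ≠ (f i).β := fun i => ne_slope (f i) (h0 i) N₀ (fun n hn => (h1 n hn).1 i)
  filter_upwards [bd f, eventually_ge_atTop N₀,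
    eventually_gt_atTop (∑ i, (2 * (f i).γ.natAbs))] with n hb hn hM
  refine ⟨sa_ls f hne n (h1 n hn) hd (fun i => ?_), hb⟩
  have h2 : 2 * (f i).γ.natAbs ≤ ∑ i, (2 * (f i).γ.natAbs) :=
    Finset.single_le_sum (f := fun i => 2 * (f i).γ.natAbs) (fun i _ => Nat.zero_le _) (mem_univ i)
  have h3 : 2 * (f i).γ.natAbs < n := lt_of_le_of_lt h2 hM
  have h4 : ((f i).γ.natAbs : ℤ) = |(f i).γ| := Int.natCast_natAbs _
  omega

end aux

/-- Let `k ≥ 2`, let `f_1, …, f_k` be an ARBITRARY admissible family of linear polynomials in `x, y`, pairwise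
distinct up to the sign, and let `θ > 0`. For all `J`, `L`, `x₀`, all `ε > 0` and all large `r`: for ALL large
`n`, with `y = ⌊n ^ (1 / r)⌋`, ALL intervals `(Z, Z + Y]` with `Y ≥ n ^ θ` and all `T` with `T V ≤ x₀`, the set
`Rough f n y` satisfies `PoissonLaw`: for all disjoint windows `(a j, b j] ⊆ (0, T]`, `j < J`, all `s ≤ T` outside of
them and all `l j ≤ L`, the number of the `m` in `(Z, Z + Y]` with `m + s ∈ Rough f n y` and exactly `l j` elements of
`Rough f n y` in `(m + a j, m + b j]` for all `j` is `Y V` times the product of the probabilities that a Poisson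
variable of mean `(b j - a j) V` has the value `l j`, up to `ε Y V`; and the same without the condition on `m + s`,
with `Y` instead of `Y V`. (With `J = 0`: the interval contains `(1 + O(ε)) Y V` elements of `Rough f n y`.) -/
theorem result (k : ℕ) (hk : 2 ≤ k) (f : Fin k → Lin) (hf : Admissible f)
    (hd : ∀ i j, i ≠ j → f i ≠ f j ∧ ¬ ((f i).α = -(f j).α ∧ (f i).β = -(f j).β ∧ (f i).γ = -(f j).γ))
    (θ : ℝ) (hθ : 0 < θ) :
    ∀ (J L : ℕ) (x₀ ε : ℝ), 0 < ε → ∃ r₀ : ℕ, ∀ r : ℕ, r₀ ≤ r → ∀ᶠ n : ℕ in atTop,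
      ∀ y : ℕ, y = ⌊(n : ℝ) ^ (1 / (r : ℝ))⌋₊ → ∀ Z Y T : ℕ, (n : ℝ) ^ θ ≤ Y → T * V f n y ≤ x₀ →
        PoissonLaw (Rough f n y) (V f n y) J L ε Z Y T := by
  have hok := ok f hf hd
  · intro J L x₀ ε hε
    obtain ⟨r₀, h⟩ := law_lin k hk 2 θ two_pos hθ J L x₀ ε hε
    refine ⟨r₀, fun r hr => ?_⟩
    filter_upwards [h r hr, hok] with n hn hn'
    intro y hy Z Y T hY hT
    obtain ⟨h1, h2, h3⟩ := hn'
    have h4 := hn (sa f) (sb f n) h1 h2 h3 Z Y hY T
    rw [← hy, V_eq] at h4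
    exact h4 hT (Rough f n y) (fun m _ => rough_iff f n y m)

end Pool.Agent.Results.MP_0da313_nt.LinearFamilies
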