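import Pool.Agent.U163.SU.UniU

/-!
# Clusters of primes `x` with almost prime values along the line `x + y = n`, for EVERY large `n` and all
families of polynomials with coefficients up to a power of `n`

The question asks, for an admissible family `f_1, …, f_s ∈ ℤ[x, y]`, for a representation `n = x + y` of every
large `n` such that all `|f_k (x, y)|` are prime. Here the values are only almost primes (a bounded number of
prime factors, all larger than a power of `n`), but the arguments `x` are primes, which form clusters: for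
every large `n` and every scale `n ^ (1 / A) ≤ N < n / 2` a positive proportion of the patterns `H` of `m` elements
of any given large finite set are realised, each at least `N / (log N) ^ B` times in `(N, 2 N]`, by the numbers
`x + h`, `h ∈ H`, all of them primes in a given residue class, with almost prime values `|f_k (x + h, n - x - h)|`
for all `k`. The polynomials are arbitrary (of any degree, reducible or not), there is no exceptional `n`, and
the result is uniform in the family: the number of the prime factors depends only on `A`, the number of the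
polynomials and their degrees, for all families with coefficients up to `N ^ A`. The only condition is the
necessary one that no prime divides `x ∏ f_k (x, n - x)` for all `x`.

The starting file `LinearFamilies` of this problem treats linear polynomials and arguments without small prime
factors; the other files of this problem have exceptional `n` or special polynomials.

Proof. The theorem `R498.MP.stringsU` of the starting library (Maynard-Tao theorem for primes with almost prime
polynomial values, uniformly in the polynomial; it is not used by a starting hand-in) is applied to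
`∏ f_k (X, n - X)`; the proportion of the patterns follows by double counting (`Helper32K9.Str`).
-/

set_option autoImplicit false

namespace Pool.Agent.Results.MP_0da313_nt.PrimeArguments

open Finset Filter Polynomial

/-- The value at `(x, y)` of the polynomial with the coefficients `c i j`, `i, j ≤ D`. -/
def value {D : ℕ} (c : Fin (D + 1) → Fin (D + 1) → ℤ) (x y : ℤ) : ℤ :=
  ∑ i, ∑ j, c i j * x ^ (i : ℕ) * y ^ (j : ℕ)

/-- `n` has at most `r` prime factors, counted with multiplicity, all of them at least `w`. -/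
def AlmostPrime (r : ℕ) (w : ℝ) (n : ℕ) : Prop :=
  n.primeFactorsList.length ≤ r ∧ ∀ q : ℕ, q.Prime → q ∣ n → w ≤ q

/-- The integers `x` with `N < x`, `x + max H ≤ 2 N`, such that all the numbers `x + h`, `h ∈ H`, are primes
`≡ a` modulo `q`, and such that for all of them the values `|f_k (x + h, n - (x + h))|` are not zero and have at
most `r` prime factors, all of them at least `N ^ δ`. -/
def places {s D : ℕ} (c : Fin s → Fin (D + 1) → Fin (D + 1) → ℤ) (n N q a r : ℕ) (δ : ℝ)
    (H : Finset ℕ) : Set ℕ :=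
  {x | N < x ∧ x + H.sup id ≤ 2 * N ∧ ∀ h ∈ H, (x + h).Prime ∧ x + h ≡ a [MOD q] ∧
    ∀ k, value (c k) (x + h : ℕ) (n - (x + h : ℕ)) ≠ 0 ∧
      AlmostPrime r ((N : ℝ) ^ δ) (value (c k) (x + h : ℕ) (n - (x + h : ℕ))).natAbs}

/-- the polynomial `f (X, n - X)` -/
noncomputable def line {D : ℕ} (c : Fin (D + 1) → Fin (D + 1) → ℤ) (n : ℕ) : ℤ[X] :=
  ∑ i, ∑ j, C (c i j) * X ^ (i : ℕ) * (C (n : ℤ) - X) ^ (j : ℕ)

theorem line_eval {D : ℕ} (c : Fin (D + 1) → Fin (D + 1) → ℤ) (n : ℕ) (x : ℤ) :
    (line c n).eval x = value c x (n - x) := by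
  unfold line value
  rw [eval_finsetSum]
  refine Finset.sum_congr rfl fun i _ => ?_
  rw [eval_finsetSum]
  refine Finset.sum_congr rfl fun j _ => ?_
  simp

theorem line_deg {D : ℕ} (c : Fin (D + 1) → Fin (D + 1) → ℤ) (n : ℕ) :
    (line c n).natDegree ≤ 2 * D := by
  unfold line
  refine natDegree_sum_le_of_forall_le _ _ fun i _ => natDegree_sum_le_of_forall_le _ _ fun j _ => ?_
  have h1 : (C (n : ℤ) - X : ℤ[X]).natDegree ≤ 1 := by
    refine (natDegree_sub_le _ _).trans ?_
    rw [natDegree_C, natDegree_X]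
    omega
  have h2 : ((C (n : ℤ) - X : ℤ[X]) ^ (j : ℕ)).natDegree ≤ j := by
    refine natDegree_pow_le.trans ?_
    calc (j : ℕ) * (C (n : ℤ) - X : ℤ[X]).natDegree ≤ j * 1 := by gcongr
      _ = j := mul_one _
  have h3 : (C (c i j) * X ^ (i : ℕ) : ℤ[X]).natDegree ≤ i := natDegree_C_mul_X_pow_le _ _
  refine natDegree_mul_le.trans ?_
  have := i.2
  have := j.2
  omega

theorem value_le {D N A : ℕ} (hN : (D + 1) ^ 2 ≤ N) (hN3 : 3 ≤ N) (c : Fin (D + 1) → Fin (D + 1) → ℤ)
    (hc : ∀ i j, |c i j| ≤ (N : ℤ) ^ A) {n : ℕ} (hn : n ≤ N ^ A) (x : ℤ) (hx : |x| ≤ 2 * N) :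
    |value c x (n - x)| ≤ (N : ℤ) ^ (A + 2 * D + (A + 2) * D + 1) := by
  have hN3' : (3 : ℤ) ≤ N := by exact_mod_cast hN3
  have h1 : (1 : ℤ) ≤ (N : ℤ) ^ A := one_le_pow₀ (by linarith)
  have hx2 : |x| ≤ (N : ℤ) ^ 2 := hx.trans (by nlinarith)
  have hy : |(n : ℤ) - x| ≤ (N : ℤ) ^ (A + 2) := by
    have h2 : (n : ℤ) ≤ (N : ℤ) ^ A := by exact_mod_cast hn
    calc |(n : ℤ) - x| ≤ |(n : ℤ)| + |x| := abs_sub _ _
      _ ≤ (N : ℤ) ^ A + 2 * N := by
          rw [Nat.abs_cast]
          linarith
      _ ≤ (N : ℤ) ^ A * (N : ℤ) ^ 2 := by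
          have h3 : (2 : ℤ) * N + 1 ≤ (N : ℤ) ^ 2 := by nlinarith
          nlinarith
      _ = (N : ℤ) ^ (A + 2) := by rw [pow_add]
  have hterm : ∀ i j : Fin (D + 1), |c i j * x ^ (i : ℕ) * ((n : ℤ) - x) ^ (j : ℕ)| ≤
      (N : ℤ) ^ (A + 2 * D + (A + 2) * D) := by
    intro i j
    rw [abs_mul, abs_mul, abs_pow, abs_pow]
    have h2 : |x| ^ (i : ℕ) ≤ (N : ℤ) ^ (2 * D) := by
      calc |x| ^ (i : ℕ) ≤ ((N : ℤ) ^ 2) ^ (i : ℕ) := by gcongr
        _ = (N : ℤ) ^ (2 * (i : ℕ)) := by rw [← pow_mul]
        _ ≤ (N : ℤ) ^ (2 * D) := by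
            apply pow_le_pow_right₀ (by linarith)
            have := i.2
            omega
    have h3 : |(n : ℤ) - x| ^ (j : ℕ) ≤ (N : ℤ) ^ ((A + 2) * D) := by
      calc |(n : ℤ) - x| ^ (j : ℕ) ≤ ((N : ℤ) ^ (A + 2)) ^ (j : ℕ) := by gcongr
        _ = (N : ℤ) ^ ((A + 2) * (j : ℕ)) := by rw [← pow_mul]
        _ ≤ (N : ℤ) ^ ((A + 2) * D) := by
            apply pow_le_pow_right₀ (by linarith)
            apply Nat.mul_le_mul_left
            have := j.2
            omega
    calc |c i j| * |x| ^ (i : ℕ) * |(n : ℤ) - x| ^ (j : ℕ) ≤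
          (N : ℤ) ^ A * (N : ℤ) ^ (2 * D) * (N : ℤ) ^ ((A + 2) * D) := by
            gcongr
            exact hc i j
      _ = (N : ℤ) ^ (A + 2 * D + (A + 2) * D) := by rw [pow_add, pow_add]
  unfold value
  calc |∑ i, ∑ j, c i j * x ^ (i : ℕ) * ((n : ℤ) - x) ^ (j : ℕ)| ≤
        ∑ i, ∑ j, |c i j * x ^ (i : ℕ) * ((n : ℤ) - x) ^ (j : ℕ)| :=
          (Finset.abs_sum_le_sum_abs _ _).trans
            (Finset.sum_le_sum fun i _ => Finset.abs_sum_le_sum_abs _ _)
    _ ≤ ∑ _i : Fin (D + 1), ∑ _j : Fin (D + 1), (N : ℤ) ^ (A + 2 * D + (A + 2) * D) :=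
        Finset.sum_le_sum fun i _ => Finset.sum_le_sum fun j _ => hterm i j
    _ = ((D : ℤ) + 1) ^ 2 * (N : ℤ) ^ (A + 2 * D + (A + 2) * D) := by
        rw [Finset.sum_const, Finset.sum_const, Finset.card_univ, Fintype.card_fin]
        simp only [nsmul_eq_mul]
        push_cast
        ring
    _ ≤ (N : ℤ) * (N : ℤ) ^ (A + 2 * D + (A + 2) * D) := by
        gcongr
        exact_mod_cast hN
    _ = (N : ℤ) ^ (A + 2 * D + (A + 2) * D + 1) := by rw [pow_succ]; ring

/-- **Clusters of primes with almost prime values along `x + y = n`.** Let `s`, `D`, `m ≥ 1` be given and let `q` be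
squarefree. There are `C`, `B` and `δ > 0` such that for every `A` there is an `r` such that for every finite set
`T` of at least `C` nonnegative integers and all large `n` the following holds for all `N` with
`n ^ (1 / A) ≤ N < n / 2` and ALL polynomials `f_1, …, f_s` with degrees `≤ D` in `x` and in `y` and integral
coefficients of absolute value at most `N ^ A` such that for every prime `p` there is an `x` for which `p` does not
divide `x ∏ f_k (x, n - x)`, and all classes `a` modulo `q` for which `a ∏ f_k (a, n - a)` is prime to `q` (for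
instance `q = 1`): for at least the proportion `1 / C` of the subsets `H` of `T` with `m` elements there are at least
`N / (log N) ^ B` integers `x`, `N < x`, `x + max H ≤ 2 N`, such that all the `x + h`, `h ∈ H`, are primes `≡ a`
modulo `q`, and all the values `|f_k (x + h, n - (x + h))|` are not zero and have at most `r` prime factors, all of
them at least `N ^ δ`. -/
theorem result (s D m : ℕ) (hm : 1 ≤ m) (q : ℕ) (hq : Squarefree q) :
    ∃ (K B : ℕ) (δ : ℝ), 0 < K ∧ 0 < δ ∧ ∀ A : ℕ, ∃ r : ℕ, ∀ T : Finset ℕ, K ≤ T.card →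
      ∀ᶠ n : ℕ in atTop, ∀ N : ℕ, n ≤ N ^ A → 2 * N < n →
      ∀ c : Fin s → Fin (D + 1) → Fin (D + 1) → ℤ, (∀ k i j, |c k i j| ≤ (N : ℤ) ^ A) →
      (∀ p : ℕ, p.Prime → ∃ x : ℤ, ¬ (p : ℤ) ∣ x ∧ ∀ k, ¬ (p : ℤ) ∣ value (c k) x (n - x)) →
      ∀ a : ℕ, (∀ p : ℕ, p.Prime → p ∣ q → ¬ (p : ℤ) ∣ (a : ℤ) ∧
        ∀ k, ¬ (p : ℤ) ∣ value (c k) a (n - a)) →
      T.card.choose m ≤ K * {H : Finset ℕ | H ⊆ T ∧ H.card = m ∧
        (N : ℝ) / Real.log N ^ B ≤ (places c n N q a r δ H).ncard}.ncard := by
  classical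
  obtain ⟨K, B, δ, hK, hδ, hmain⟩ := Pool.Agent.U163.SU.uniU_prod s (2 * D) q hq m hm
  refine ⟨K, B, δ, hK, hδ, fun A => ?_⟩
  obtain ⟨r, hr⟩ := hmain (A + 2 * D + (A + 2) * D + 1)
  refine ⟨r, fun T hT => ?_⟩
  have h := hr T hT
  obtain ⟨N₀, hN₀⟩ := eventually_atTop.1 h
  filter_upwards [eventually_ge_atTop ((N₀ + (D + 1) ^ 2 + 3) ^ A + 1)] with n hn N hnN h2N c hc hadm a ha
  have hNbig : N₀ + (D + 1) ^ 2 + 3 ≤ N := by
    by_contra hcon
    push Not at hcon
    have := Nat.pow_le_pow_left hcon.le A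
    omega
  have key := hN₀ N (by omega) (fun k => line (c k) n) (fun k => line_deg _ _)
    (fun p hp => by
      obtain ⟨x, hx, hx'⟩ := hadm p hp
      exact ⟨x, hx, fun k => by rw [line_eval]; exact hx' k⟩)
    (fun k x hx => by
      rw [line_eval]
      exact value_le (by omega) (by omega) (c k) (hc k) hnN x hx)
    a (fun p hp hpq => by
      obtain ⟨h1, h2⟩ := ha p hp hpq
      exact ⟨h1, fun k => by rw [line_eval]; exact h2 k⟩)
  have heq : ∀ H, Pool.Agent.U163.SU.clusters (fun k => line (c k) n) N q a r δ H =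
      places c n N q a r δ H := by
    intro H
    unfold Pool.Agent.U163.SU.clusters places
    simp only [line_eval]
    rfl
  simp only [heq] at key
  exact key

end Pool.Agent.Results.MP_0da313_nt.PrimeArguments
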